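import Pool.Agent.Helper74.UB.Goals4

set_option autoImplicit false

/-! Project UB (MP_cd9ac2_co): goal TOPS. -/

namespace Pool.Agent.Helper38.UB

open Finset Equiv Helper28.VF
open Pool.Agent.Helper74.UB
open scoped Classical

lemma mem_filter' {α : Type} {p : α → Prop} {inst : DecidablePred p} {s : Finset α} {a : α} :
    a ∈ @Finset.filter α p inst s ↔ a ∈ s ∧ p a := Finset.mem_filter

section basics

variable {V D E F E' F' : Type} [Fintype V] [Fintype D] [Fintype E] [Fintype F]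
    [Fintype E'] [Fintype F'] {L : Lay V} {M : PM D V E F}
    {dE dW : V → D} {dU dN : V → V → D} {I : F → Prop} {M' : PM (DC M I) (VC V I) E' F'}
    {O Q A : Finset (VC V I)}

lemma tgE (lm : LM L M dE dW dU dN) (v : V) : tg M (dE v) = L.e v := by
  unfold tg
  rw [lm.aE, lm.vW]

lemma tgW (lm : LM L M dE dW dU dN) (v : V) : tg M (dW v) = v := by
  unfold tg
  rw [← lm.aE, M.α_inv, lm.vE]

lemma tgU (lm : LM L M dE dW dU dN) {v k : V} (u : L.up v k) : tg M (dU v k) = k := by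
  unfold tg
  rw [lm.aU v k u, lm.vN v k u]

lemma tgN (lm : LM L M dE dW dU dN) {v k : V} (u : L.up v k) : tg M (dN v k) = v := by
  unfold tg
  rw [← lm.aU v k u, M.α_inv, lm.vU v k u]

omit [Fintype E'] [Fintype F'] in
lemma fc_ph (M : PM D V E F) (d : D) : M.fc (ph M d) = M.fc d :=
  (M.fc_iff _ _).2 (Equiv.Perm.sameCycle_apply_left.2 (Equiv.Perm.SameCycle.refl _ _))

lemma vt_ph (M : PM D V E F) (d : D) : M.vt (ph M d) = tg M d :=
  (M.vt_iff _ _).2 (Equiv.Perm.sameCycle_apply_left.2 (Equiv.Perm.SameCycle.refl _ _))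

lemma fa_of_ad {M : PM D V E F} {u v : V} (h : Ad M u v) : FA M u v := by
  obtain ⟨d, h1, h2⟩ := h
  exact ⟨d, ph M d, (fc_ph M d).symm, h1, by rw [vt_ph, h2]⟩

lemma mk_nb (hc : IsCone M I M') (d : D) (hI : ¬ I (M.fc d)) (h1 : Sum.inl (M.vt d) ∉ O)
    (h2 : Sum.inl (tg M d) ∉ O) (h3 : Sum.inl (M.vt d) ∉ A ∨ Sum.inl (tg M d) ∉ A) (e : D)
    (he : M.fc e = M.fc d) (h4 : Sum.inl (M.vt e) ∈ O) : Sum.inl d ∈ nb M' O A := by
  have e1 : M'.vt (Sum.inl d) = Sum.inl (M.vt d) := hc.vl d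
  have e2 : tg M' (Sum.inl d) = Sum.inl (tg M d) := by
    unfold tg
    rw [hc.al, hc.vl]
  unfold nb bd
  refine mem_filter'.2 ⟨mem_filter'.2 ⟨mem_univ _, ⟨Sum.inl e, (hc.fo d hI _).2 ⟨e, rfl, he⟩,
    by rw [hc.vl]; exact h4⟩, by rw [e1]; exact h1, by rw [e2]; exact h2⟩, ?_⟩
  rw [e1, e2]
  tauto

lemma strip_uniq {M : PM D V E F} {row : V → ℤ} {d : D} {y z : ℤ} (h1 : InStrip M row d y)
    (h2 : InStrip M row d z) : y = z := by
  obtain ⟨e, he, hy⟩ := h1.2.1
  obtain ⟨e', he', hy'⟩ := h1.2.2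
  have a1 := h2.1 e he
  have a2 := h2.1 e' he'
  omega

end basics

section flat

variable {V : Type} {L : Lay V} {N h : ℕ} {f : ℤ → ZMod N → V}

/-- `Flat` with integer rows. -/
structure FlatZ (L : Lay V) (N h : ℕ) (f : ℤ → ZMod N → V) : Prop where
  row : ∀ (r : ℤ) i, 0 ≤ r → r ≤ h → L.row (f r i) = r
  surj : ∀ v, 0 ≤ L.row v → L.row v ≤ h → ∃ i, f (L.row v) i = v
  inj : ∀ (r : ℤ) i j, 0 ≤ r → r ≤ h → f r i = f r j → i = j
  e : ∀ (r : ℤ) i, 0 ≤ r → r ≤ h → L.e (f r i) = f r (i + 1)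
  upS : ∀ (r : ℤ) i k, 0 ≤ r → r < h → Even r → (L.up (f r i) k ↔ k = f (r + 1) i)
  upT : ∀ (r : ℤ) i k, 0 ≤ r → r < h → ¬ Even r →
    (L.up (f r i) k ↔ k = f (r + 1) i ∨ k = f (r + 1) (i + 1))

lemma flatZ (fl : Flat L N h f) : FlatZ L N h f where
  row r i h0 h1 := by
    lift r to ℕ using h0
    exact fl.row r i (Nat.zero_le _) (by exact_mod_cast h1)
  surj := fl.surj
  inj r i j h0 h1 h2 := by
    lift r to ℕ using h0
    exact fl.inj r i j (Nat.zero_le _) (by exact_mod_cast h1) h2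
  e r i h0 h1 := by
    lift r to ℕ using h0
    exact fl.e r i (Nat.zero_le _) (by exact_mod_cast h1)
  upS r i k h0 h1 h2 := by
    lift r to ℕ using h0
    exact fl.upS r i k (Nat.zero_le _) (by exact_mod_cast h1) (by simpa using h2)
  upT r i k h0 h1 h2 := by
    lift r to ℕ using h0
    exact fl.upT r i k (Nat.zero_le _) (by exact_mod_cast h1) (by simpa using h2)

end flat

lemma cols {N : ℕ} [NeZero N] (G : ZMod N → Prop) (x0 : ZMod N) (h0 : G x0)
    (h1 : ∃ x, ¬ G x) :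
    ∃ a b, G a ∧ ¬ G (a + 1) ∧ ¬ G b ∧ G (b + 1) ∧ (a = b + 1 → a = x0) := by
  obtain ⟨x, hx⟩ := h1
  have hE : ∃ m : ℕ, ¬ G (x0 + m) :=
    ⟨(x - x0).val, by rw [ZMod.natCast_zmod_val]; simpa using hx⟩
  have hW : ∃ m : ℕ, ¬ G (x0 - m) :=
    ⟨(x0 - x).val, by rw [ZMod.natCast_zmod_val]; simpa using hx⟩
  obtain ⟨m, hm1, hm2⟩ : ∃ m : ℕ, ¬ G (x0 + m) ∧ ∀ k < m, G (x0 + k) :=
    ⟨Nat.find hE, Nat.find_spec hE, fun k hk => not_not.1 (Nat.find_min hE hk)⟩
  obtain ⟨n, hn1, hn2⟩ : ∃ n : ℕ, ¬ G (x0 - n) ∧ ∀ k < n, G (x0 - k) :=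
    ⟨Nat.find hW, Nat.find_spec hW, fun k hk => not_not.1 (Nat.find_min hW hk)⟩
  have m0 : m ≠ 0 := by
    rintro rfl
    simp [h0] at hm1
  have n0 : n ≠ 0 := by
    rintro rfl
    simp [h0] at hn1
  obtain ⟨m, rfl⟩ := Nat.exists_eq_succ_of_ne_zero m0
  obtain ⟨n, rfl⟩ := Nat.exists_eq_succ_of_ne_zero n0
  refine ⟨x0 + m, x0 - (n + 1 : ℕ), hm2 m (Nat.lt_succ_self m), ?_, hn1, ?_, ?_⟩
  · have : x0 + (m : ZMod N) + 1 = x0 + (m.succ : ℕ) := by
      push_cast
      ring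
    rw [this]
    exact hm1
  · have : x0 - ((n + 1 : ℕ) : ZMod N) + 1 = x0 - (n : ℕ) := by
      push_cast
      ring
    rw [this]
    exact hn2 n (Nat.lt_succ_self n)
  · intro he
    have e1 : x0 + (m : ZMod N) = x0 - (n : ℕ) := by
      rw [he]
      push_cast
      ring
    rcases Nat.eq_zero_or_pos n with h2 | h2
    · rw [e1, h2]
      simp
    · exfalso
      obtain ⟨n, rfl⟩ := Nat.exists_eq_succ_of_ne_zero h2.ne'
      apply hm1
      have e2 : x0 + ((m.succ : ℕ) : ZMod N) = x0 - (n : ℕ) := by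
        have : x0 + ((m.succ : ℕ) : ZMod N) = (x0 + (m : ZMod N)) + 1 := by
          push_cast
          ring
        rw [this, e1]
        push_cast
        ring
      rw [e2]
      exact hn2 n (by omega)

theorem tops (g1 : StmtSq) (g2 : StmtTriF) (g3 : StmtStrip) (g4 : StmtConeAd)
    (g5 : StmtConeSmall) (g6 : StmtHSmall) (g7 : StmtLayAd) : StmtTopS := by
  intro K h V D E F E' F' _ _ _ _ _ _ L f M dE dW dU dN I M' O Q A t H het
  have : NeZero (3 * 2 ^ K) := ⟨by positivity⟩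
  have host := H.host
  have lm := H.lm
  have flat := flatZ H.host.flat
  have ht0 := H.t0
  have ht2 := H.t2
  have odd1 : ¬ Even (t + 1) := by
    rw [Int.even_add_one]
    exact not_not.2 het
  -- rows
  have rt : ∀ i, L.row (f t i) = t := fun i => flat.row t i ht0 (by omega)
  have rt1 : ∀ i, L.row (f (t + 1) i) = t + 1 := fun i => flat.row _ i (by omega) (by omega)
  have rt2 : ∀ i, L.row (f (t + 1 + 1) i) = t + 1 + 1 :=
    fun i => flat.row _ i (by omega) (by omega)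
  have et : ∀ i, L.e (f t i) = f t (i + 1) := fun i => flat.e t i ht0 (by omega)
  have et1 : ∀ i, L.e (f (t + 1) i) = f (t + 1) (i + 1) := fun i => flat.e _ i (by omega) (by omega)
  have et2 : ∀ i, L.e (f (t + 1 + 1) i) = f (t + 1 + 1) (i + 1) :=
    fun i => flat.e _ i (by omega) (by omega)
  have ut : ∀ i, L.up (f t i) (f (t + 1) i) := fun i =>
    (flat.upS t i _ ht0 (by omega) het).2 rfl
  have ut1 : ∀ i, L.up (f (t + 1) i) (f (t + 1 + 1) i) := fun i =>
    (flat.upT (t + 1) i _ (by omega) (by omega) odd1).2 (Or.inl rfl)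
  have ut1' : ∀ i, L.up (f (t + 1) i) (f (t + 1 + 1) (i + 1)) := fun i =>
    (flat.upT (t + 1) i _ (by omega) (by omega) odd1).2 (Or.inr rfl)
  -- strips
  obtain ⟨st1, st2, st3, st4, st5, st6⟩ := g3 K h V D E F L f M dE dW dU dN host lm
  have hb := host.ax.bnd
  have hr1 := host.r1
  have hr0 := host.r0
  have hK1 := host.K1
  -- not in A, not in O
  have nA : ∀ v, t < L.row v → Sum.inl v ∉ A := fun v hv h => by
    have := H.rA v h
    omega
  have nO : ∀ v, t + 1 < L.row v → Sum.inl v ∉ O := fun v hv h => by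
    have := H.rQ v (H.sub h)
    omega
  have OA : ∀ v, v ∈ O → v ∉ A := fun v hv => Finset.disjoint_left.1 H.dis (H.sub hv)
  -- faces of row t
  have sq := fun j => g1 K h V D E F L f M dE dW dU dN host lm t j ht0 (by omega) het
  have fcU : ∀ j, M.fc (dU (f t (j + 1)) (f (t + 1) (j + 1))) = M.fc (dE (f t j)) :=
    fun j => ((sq j).2 _).2 (Or.inr (Or.inl rfl))
  have fcW : ∀ j, M.fc (dW (f (t + 1) j)) = M.fc (dE (f t j)) :=
    fun j => ((sq j).2 _).2 (Or.inr (Or.inr (Or.inl rfl)))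
  have fcN : ∀ j, M.fc (dN (f t j) (f (t + 1) j)) = M.fc (dE (f t j)) :=
    fun j => ((sq j).2 _).2 (Or.inr (Or.inr (Or.inr rfl)))
  -- faces of row t + 1
  have tr := fun j => g2 K h V D E F L f M dE dW dU dN host lm (t + 1) j (by omega) (by omega) odd1
  have nI3 : ∀ d, T3 M d → ¬ I (M.fc d) := fun d hd hI => (H.sq d hI).1.2 hd
  have nIE : ∀ j, ¬ I (M.fc (dE (f (t + 1) j))) := fun j => nI3 _ (tr j).1.1
  have nIW : ∀ j, ¬ I (M.fc (dW (f (t + 1 + 1) j))) := fun j => nI3 _ (tr j).2.1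
  have fEU : ∀ j, M.fc (dU (f (t + 1) (j + 1)) (f (t + 1 + 1) (j + 1))) =
      M.fc (dE (f (t + 1) j)) := fun j => ((tr j).1.2 _).2 (Or.inr (Or.inl rfl))
  have fEN : ∀ j, M.fc (dN (f (t + 1) j) (f (t + 1 + 1) (j + 1))) =
      M.fc (dE (f (t + 1) j)) := fun j => ((tr j).1.2 _).2 (Or.inr (Or.inr rfl))
  have fWU : ∀ j, M.fc (dU (f (t + 1) j) (f (t + 1 + 1) (j + 1))) =
      M.fc (dW (f (t + 1 + 1) j)) := fun j => ((tr j).2.2 _).2 (Or.inr (Or.inr rfl))
  -- adjacency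
  obtain ⟨ad1, ad2, ad3⟩ := g7 V D E F L M dE dW dU dN host.ax lm
  obtain ⟨ca1, ca2, ca3, ca4, ca5, ca6⟩ := g4 D V E F E' F' M I M' H.cone
  have cl : ∀ u v, Sum.inl u ∈ O → Sum.inl v ∈ Q → L.adj u v → Sum.inl v ∈ O :=
    fun u v hu hv ha => H.closed _ hu _ hv (fa_of_ad ((ca1 u v).2 ((ad1 u v).2 ha)))
  have evv : ∀ u v, Sum.inl u ∈ A → L.adj u v → L.row v = t + 1 → Sum.inl v ∈ Q :=
    fun u v hu ha hr => H.ev _ hu v ((ca1 u v).2 ((ad1 u v).2 ha)) hr
  -- square of I: upper corners are in Q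
  have IQ : ∀ j, I (M.fc (dE (f t j))) → Sum.inl (f (t + 1) j) ∈ Q ∧
      Sum.inl (f (t + 1) (j + 1)) ∈ Q := by
    intro j hI
    constructor
    · refine H.ev (Sum.inr ⟨_, hI⟩) (H.cen _) _ (((ca2 _ _).1).2
        ⟨dN (f t j) (f (t + 1) j), fcN j, lm.vN _ _ (ut j)⟩) (rt1 j)
    · refine H.ev (Sum.inr ⟨_, hI⟩) (H.cen _) _ (((ca2 _ _).1).2
        ⟨dW (f (t + 1) j), fcW j, ?_⟩) (rt1 _)
      rw [lm.vW, et1]
  -- small
  have sm : Small M := (g6 K h V D E F L f M dE dW dU dN host lm).1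
  obtain ⟨cs1, cs2, cs3, cs4⟩ := g5 D V E F E' F' M I M' H.cone sm (fun d hd => (H.sq d hd).1)
  have T4N : ∀ j, T4 M (dN (f t j) (f (t + 1) j)) := fun j =>
    (st6 _).2 ⟨t, ht0, by omega, het, by
      have := (st3 _ _ (ut j)).2
      rwa [rt] at this⟩
  have T4U : ∀ j, T4 M (dU (f t j) (f (t + 1) j)) := fun j =>
    (st6 _).2 ⟨t, ht0, by omega, het, by
      have := (st3 _ _ (ut j)).1
      rwa [rt] at this⟩
  have sqN : ∀ j, ¬ I (M.fc (dE (f t j))) →
      SqE M' (Sum.inl (f t j)) (Sum.inl (f (t + 1) j)) := by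
    intro j hI
    refine ⟨Sum.inl (dN (f t j) (f (t + 1) j)), ?_, Or.inr ⟨?_, ?_⟩⟩
    · exact ((cs3 _ (by rw [fcN]; exact hI)).2).2 (T4N j)
    · rw [H.cone.vl, lm.vN _ _ (ut j)]
    · unfold tg
      rw [H.cone.al, H.cone.vl]
      exact congrArg Sum.inl (tgN lm (ut j))
  have sqU : ∀ j, ¬ I (M.fc (dE (f t j))) →
      SqE M' (Sum.inl (f t (j + 1))) (Sum.inl (f (t + 1) (j + 1))) := by
    intro j hI
    refine ⟨Sum.inl (dU (f t (j + 1)) (f (t + 1) (j + 1))), ?_, Or.inl ⟨?_, ?_⟩⟩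
    · exact ((cs3 _ (by rw [fcU]; exact hI)).2).2 (T4U (j + 1))
    · rw [H.cone.vl, lm.vU _ _ (ut (j + 1))]
    · unfold tg
      rw [H.cone.al, H.cone.vl]
      exact congrArg Sum.inl (tgU lm (ut (j + 1)))
  -- adjacency relations used
  have aT : ∀ j, L.adj (f (t + 1) j) (f (t + 1) (j + 1)) := fun j => Or.inl (et1 j).symm
  have aT' : ∀ j, L.adj (f (t + 1) (j + 1)) (f (t + 1) j) := fun j => Or.inr (Or.inl (et1 j).symm)
  have aV : ∀ j, L.adj (f t j) (f (t + 1) j) := fun j => Or.inr (Or.inr (Or.inl (ut j)))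
  -- strips of the darts of the square
  have sE : ∀ j, InStrip M L.row (dE (f t j)) t := fun j => by
    have := st1 (f t j) (by rw [rt]; omega)
    rwa [rt] at this
  have sW : ∀ j, InStrip M L.row (dW (f (t + 1) j)) t := fun j => by
    have := st2 (f (t + 1) j) (by rw [rt1]; omega)
    rwa [rt1, add_sub_cancel_right] at this
  have sU : ∀ j, InStrip M L.row (dU (f t j) (f (t + 1) j)) t := fun j => by
    have := (st3 _ _ (ut j)).1
    rwa [rt] at this
  have sN : ∀ j, InStrip M L.row (dN (f t j) (f (t + 1) j)) t := fun j => by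
    have := (st3 _ _ (ut j)).2
    rwa [rt] at this
  -- the property of good darts
  set Ok : D → Prop := fun d => Sum.inl d ∈ nb M' O A ∧ InStrip M L.row d t with hOk
  set G : ZMod (3 * 2 ^ K) → Prop := fun x => Sum.inl (f t x) ∈ O ∨ Sum.inl (f (t + 1) x) ∈ O
    with hG
  -- east side
  have east : ∀ j, G j → ¬ G (j + 1) →
      Ok (dU (f t (j + 1)) (f (t + 1) (j + 1))) ∧
      ∃ (s : Finset D) (p : Finset (V × V)), s.card + p.card = 1 ∧
        (∀ d ∈ s, Ok d ∧ (d = dE (f t j) ∨ d = dW (f (t + 1) j))) ∧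
        ∀ q ∈ p, q = (f t j, f (t + 1) j) ∧ Sum.inl (f t j) ∈ O ∧ Sum.inl (f (t + 1) j) ∈ O ∧
          SqE M' (Sum.inl (f t j)) (Sum.inl (f (t + 1) j)) := by
    intro j g0 g1
    have n1 : Sum.inl (f t (j + 1)) ∉ O := fun h => g1 (Or.inl h)
    have n2 : Sum.inl (f (t + 1) (j + 1)) ∉ O := fun h => g1 (Or.inr h)
    have hI : ¬ I (M.fc (dE (f t j))) := by
      intro hI
      obtain ⟨q1, q2⟩ := IQ j hI
      by_cases h3 : Sum.inl (f (t + 1) j) ∈ O
      · exact n2 (cl _ _ h3 q2 (aT j))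
      · have h4 : Sum.inl (f t j) ∈ O := g0.resolve_right h3
        exact h3 (cl _ _ h4 q1 (aV j))
    constructor
    · refine ⟨?_, sU (j + 1)⟩
      have hv := lm.vU _ _ (ut (j + 1))
      have ht := tgU lm (ut (j + 1))
      rcases g0 with h3 | h3
      · exact mk_nb H.cone _ (by rw [fcU]; exact hI) (by rw [hv]; exact n1)
          (by rw [ht]; exact n2) (Or.inr (by rw [ht]; exact nA _ (by rw [rt1]; omega)))
          (dE (f t j)) (fcU j).symm (by rw [lm.vE]; exact h3)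
      · exact mk_nb H.cone _ (by rw [fcU]; exact hI) (by rw [hv]; exact n1)
          (by rw [ht]; exact n2) (Or.inr (by rw [ht]; exact nA _ (by rw [rt1]; omega)))
          (dN (f t j) (f (t + 1) j)) ((fcN j).trans (fcU j).symm)
          (by rw [lm.vN _ _ (ut j)]; exact h3)
    · by_cases h3 : Sum.inl (f t j) ∈ O
      · by_cases h4 : Sum.inl (f (t + 1) j) ∈ O
        · refine ⟨∅, {(f t j, f (t + 1) j)}, by simp, by simp, fun q hq => ?_⟩
          exact ⟨by simpa using hq, h3, h4, sqN j hI⟩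
        · refine ⟨{dW (f (t + 1) j)}, ∅, by simp, fun d hd => ?_, by simp⟩
          have hd' : d = dW (f (t + 1) j) := by simpa using hd
          subst hd'
          refine ⟨⟨?_, sW j⟩, Or.inr rfl⟩
          exact mk_nb H.cone _ (by rw [fcW]; exact hI) (by rw [lm.vW, et1]; exact n2)
            (by rw [tgW lm]; exact h4) (Or.inr (by rw [tgW lm]; exact nA _ (by rw [rt1]; omega)))
            (dE (f t j)) (fcW j).symm (by rw [lm.vE]; exact h3)
      · have h4 : Sum.inl (f (t + 1) j) ∈ O := g0.resolve_left h3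
        refine ⟨{dE (f t j)}, ∅, by simp, fun d hd => ?_, by simp⟩
        have hd' : d = dE (f t j) := by simpa using hd
        subst hd'
        refine ⟨⟨?_, sE j⟩, Or.inl rfl⟩
        refine mk_nb H.cone _ hI (by rw [lm.vE]; exact h3) (by rw [tgE lm, et]; exact n1)
          (Or.inr ?_) (dN (f t j) (f (t + 1) j)) (fcN j) (by rw [lm.vN _ _ (ut j)]; exact h4)
        rw [tgE lm, et]
        intro hA
        exact n2 (cl _ _ h4 (evv _ _ hA (aV _) (rt1 _)) (aT j))
  have west : ∀ j, ¬ G j → G (j + 1) →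
      Ok (dN (f t j) (f (t + 1) j)) ∧
      ∃ (s : Finset D) (p : Finset (V × V)), s.card + p.card = 1 ∧
        (∀ d ∈ s, Ok d ∧ (d = dE (f t j) ∨ d = dW (f (t + 1) j))) ∧
        ∀ q ∈ p, q = (f t (j + 1), f (t + 1) (j + 1)) ∧ Sum.inl (f t (j + 1)) ∈ O ∧
          Sum.inl (f (t + 1) (j + 1)) ∈ O ∧
          SqE M' (Sum.inl (f t (j + 1))) (Sum.inl (f (t + 1) (j + 1))) := by
    intro j g1 g0
    have n1 : Sum.inl (f t j) ∉ O := fun h => g1 (Or.inl h)
    have n2 : Sum.inl (f (t + 1) j) ∉ O := fun h => g1 (Or.inr h)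
    have hI : ¬ I (M.fc (dE (f t j))) := by
      intro hI
      obtain ⟨q1, q2⟩ := IQ j hI
      by_cases h3 : Sum.inl (f (t + 1) (j + 1)) ∈ O
      · exact n2 (cl _ _ h3 q1 (aT' j))
      · have h4 : Sum.inl (f t (j + 1)) ∈ O := g0.resolve_right h3
        exact h3 (cl _ _ h4 q2 (aV (j + 1)))
    constructor
    · refine ⟨?_, sN j⟩
      have hv := lm.vN _ _ (ut j)
      have ht := tgN lm (ut j)
      rcases g0 with h3 | h3
      · exact mk_nb H.cone _ (by rw [fcN]; exact hI) (by rw [hv]; exact n2)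
          (by rw [ht]; exact n1) (Or.inl (by rw [hv]; exact nA _ (by rw [rt1]; omega)))
          (dU (f t (j + 1)) (f (t + 1) (j + 1))) ((fcU j).trans (fcN j).symm)
          (by rw [lm.vU _ _ (ut (j + 1))]; exact h3)
      · exact mk_nb H.cone _ (by rw [fcN]; exact hI) (by rw [hv]; exact n2)
          (by rw [ht]; exact n1) (Or.inl (by rw [hv]; exact nA _ (by rw [rt1]; omega)))
          (dW (f (t + 1) j)) ((fcW j).trans (fcN j).symm)
          (by rw [lm.vW, et1]; exact h3)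
    · by_cases h3 : Sum.inl (f t (j + 1)) ∈ O
      · by_cases h4 : Sum.inl (f (t + 1) (j + 1)) ∈ O
        · refine ⟨∅, {(f t (j + 1), f (t + 1) (j + 1))}, by simp, by simp, fun q hq => ?_⟩
          exact ⟨by simpa using hq, h3, h4, sqU j hI⟩
        · refine ⟨{dW (f (t + 1) j)}, ∅, by simp, fun d hd => ?_, by simp⟩
          have hd' : d = dW (f (t + 1) j) := by simpa using hd
          subst hd'
          refine ⟨⟨?_, sW j⟩, Or.inr rfl⟩
          exact mk_nb H.cone _ (by rw [fcW]; exact hI) (by rw [lm.vW, et1]; exact h4)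
            (by rw [tgW lm]; exact n2) (Or.inr (by rw [tgW lm]; exact nA _ (by rw [rt1]; omega)))
            (dU (f t (j + 1)) (f (t + 1) (j + 1))) ((fcU j).trans (fcW j).symm)
            (by rw [lm.vU _ _ (ut (j + 1))]; exact h3)
      · have h4 : Sum.inl (f (t + 1) (j + 1)) ∈ O := g0.resolve_left h3
        refine ⟨{dE (f t j)}, ∅, by simp, fun d hd => ?_, by simp⟩
        have hd' : d = dE (f t j) := by simpa using hd
        subst hd'
        refine ⟨⟨?_, sE j⟩, Or.inl rfl⟩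
        refine mk_nb H.cone _ hI (by rw [lm.vE]; exact n1) (by rw [tgE lm, et]; exact h3)
          (Or.inl ?_) (dW (f (t + 1) j)) (fcW j) (by rw [lm.vW, et1]; exact h4)
        rw [lm.vE]
        intro hA
        exact n2 (cl _ _ h4 (evv _ _ hA (aV _) (rt1 _)) (aT' j))
  -- strip t + 1
  obtain ⟨x0, hx0A, hx0O⟩ := H.hd
  obtain ⟨xc, hxc'⟩ := H.col
  have hxc : ∀ r : ℤ, 0 ≤ r → r ≤ h → Sum.inl (f r xc) ∉ O := by
    intro r h0 h1
    lift r to ℕ using h0
    exact hxc' r (Nat.zero_le _) (by exact_mod_cast h1)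
  obtain ⟨a1, b1, ha1, ha2, hb1, hb2, -⟩ := cols (fun i => Sum.inl (f (t + 1) i) ∈ O) x0 hx0O
    ⟨xc, hxc _ (by omega) (by omega)⟩
  obtain ⟨jE, jW, hE1, hE2, hW1, hW2, hEW⟩ := cols G x0 (Or.inr hx0O)
    ⟨xc, fun hg => hg.elim (hxc t ht0 (by omega)) (hxc (t + 1) (by omega) (by omega))⟩
  have sW1 : ∀ j, InStrip M L.row (dW (f (t + 1 + 1) j)) (t + 1) := fun j => by
    have := st2 (f (t + 1 + 1) j) (by rw [rt2]; omega)
    rwa [rt2, add_sub_cancel_right] at this
  set Z : Finset (ZMod (3 * 2 ^ K)) := univ.filter fun i => Sum.inl (f (t + 1) i) ∈ O with hZ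
  set Sa : Finset D := insert (dU (f (t + 1) (a1 + 1)) (f (t + 1 + 1) (a1 + 1)))
    (insert (dN (f (t + 1) b1) (f (t + 1 + 1) (b1 + 1)))
      (Z.image fun i => dW (f (t + 1 + 1) i))) with hSa
  have SaOk : ∀ d ∈ Sa, Sum.inl d ∈ nb M' O A ∧ InStrip M L.row d (t + 1) := by
    intro d hd
    rw [hSa, mem_insert, mem_insert, mem_image] at hd
    rcases hd with rfl | rfl | ⟨i, hi, rfl⟩
    · have hv := lm.vU _ _ (ut1 (a1 + 1))
      have ht := tgU lm (ut1 (a1 + 1))
      refine ⟨?_, ?_⟩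
      · exact mk_nb H.cone _ (by rw [fEU]; exact nIE a1) (by rw [hv]; exact ha2)
          (by rw [ht]; exact nO _ (by rw [rt2]; omega))
          (Or.inr (by rw [ht]; exact nA _ (by rw [rt2]; omega)))
          (dE (f (t + 1) a1)) (fEU a1).symm (by rw [lm.vE]; exact ha1)
      · have := (st3 _ _ (ut1 (a1 + 1))).1
        rwa [rt1] at this
    · have hv := lm.vN _ _ (ut1' b1)
      have ht := tgN lm (ut1' b1)
      refine ⟨?_, ?_⟩
      · exact mk_nb H.cone _ (by rw [fEN]; exact nIE b1)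
          (by rw [hv]; exact nO _ (by rw [rt2]; omega)) (by rw [ht]; exact hb1)
          (Or.inl (by rw [hv]; exact nA _ (by rw [rt2]; omega)))
          (dU (f (t + 1) (b1 + 1)) (f (t + 1 + 1) (b1 + 1))) ((fEU b1).trans (fEN b1).symm)
          (by rw [lm.vU _ _ (ut1 (b1 + 1))]; exact hb2)
      · have := (st3 _ _ (ut1' b1)).2
        rwa [rt1] at this
    · have hi' : Sum.inl (f (t + 1) i) ∈ O := (mem_filter.1 hi).2
      refine ⟨?_, sW1 i⟩
      exact mk_nb H.cone _ (nIW i) (by rw [lm.vW, et2]; exact nO _ (by rw [rt2]; omega))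
        (by rw [tgW lm]; exact nO _ (by rw [rt2]; omega))
        (Or.inr (by rw [tgW lm]; exact nA _ (by rw [rt2]; omega)))
        (dU (f (t + 1) i) (f (t + 1 + 1) (i + 1))) (fWU i)
        (by rw [lm.vU _ _ (ut1' i)]; exact hi')
  have SaCard : Sa.card = Z.card + 2 := by
    rw [hSa, card_insert_of_notMem, card_insert_of_notMem, card_image_of_injective]
    · intro i j hij
      have h1 := congrArg M.vt hij
      simp only at h1
      rw [lm.vW, lm.vW, et2, et2] at h1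
      have h2 := flat.inj _ _ _ (by omega) (by omega) h1
      exact add_right_cancel h2
    · rw [mem_image]
      rintro ⟨i, -, hi⟩
      have h1 := congrArg (fun d => L.row (tg M d)) hi
      rw [tgW lm, tgN lm (ut1' b1), rt1, rt2] at h1
      omega
    · rw [mem_insert, mem_image]
      rintro (h0 | ⟨i, -, hi⟩)
      · have h1 := congrArg (fun d => L.row (M.vt d)) h0
        rw [lm.vU _ _ (ut1 (a1 + 1)), lm.vN _ _ (ut1' b1), rt1, rt2] at h1
        omega
      · have h1 := congrArg (fun d => L.row (M.vt d)) hi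
        rw [lm.vU _ _ (ut1 (a1 + 1)), lm.vW, et2, rt1, rt2] at h1
        omega
  have Zcard : nr L.row O (t + 1) ≤ Z.card := by
    unfold nr
    refine (card_le_card (t := Z.image (f (t + 1))) ?_).trans card_image_le
    intro v hv
    obtain ⟨-, hv1, hv2⟩ := mem_filter'.1 hv
    obtain ⟨i, hi⟩ := flat.surj v (by omega) (by omega)
    rw [hv2] at hi
    exact mem_image.2 ⟨i, mem_filter.2 ⟨mem_univ _, by rw [hi]; exact hv1⟩, hi⟩
  -- strip t
  obtain ⟨okE, s1, p1, c1, hs1, hp1⟩ := east jE hE1 hE2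
  obtain ⟨okW, s2, p2, c2, hs2, hp2⟩ := west jW hW1 hW2
  have hne : jE ≠ jW := by
    rintro rfl
    exact hW1 hE1
  have hs12 : Disjoint s1 s2 := by
    rw [Finset.disjoint_left]
    intro d h1 h2
    have d1 := (hs1 d h1).2
    have d2 := (hs2 d h2).2
    rcases d1 with d1 | d1 <;> rcases d2 with d2 | d2
    · rw [d1] at d2
      have h3 := congrArg M.vt d2
      rw [lm.vE, lm.vE] at h3
      exact hne (flat.inj _ _ _ ht0 (by omega) h3)
    · rw [d1] at d2
      have h3 := congrArg (fun d => L.row (M.vt d)) d2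
      rw [lm.vE, lm.vW, et1, rt, rt1] at h3
      omega
    · rw [d1] at d2
      have h3 := congrArg (fun d => L.row (M.vt d)) d2
      rw [lm.vE, lm.vW, et1, rt, rt1] at h3
      omega
    · rw [d1] at d2
      have h3 := congrArg (tg M) d2
      rw [tgW lm, tgW lm] at h3
      exact hne (flat.inj _ _ _ (by omega) (by omega) h3)
  have rowsame : ∀ d ∈ s1 ∪ s2, L.row (M.vt d) = L.row (tg M d) := by
    intro d hd
    have : (∃ j, d = dE (f t j)) ∨ ∃ j, d = dW (f (t + 1) j) := by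
      rcases mem_union.1 hd with h1 | h1
      · exact (hs1 d h1).2.imp (fun h => ⟨_, h⟩) (fun h => ⟨_, h⟩)
      · exact (hs2 d h1).2.imp (fun h => ⟨_, h⟩) (fun h => ⟨_, h⟩)
    rcases this with ⟨j, rfl⟩ | ⟨j, rfl⟩
    · rw [lm.vE, tgE lm, et, rt, rt]
    · rw [lm.vW, tgW lm, et1, rt1, rt1]
  set Sb : Finset D := insert (dU (f t (jE + 1)) (f (t + 1) (jE + 1)))
    (insert (dN (f t jW) (f (t + 1) jW)) (s1 ∪ s2)) with hSb
  have SbOk : ∀ d ∈ Sb, Sum.inl d ∈ nb M' O A ∧ InStrip M L.row d t := by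
    intro d hd
    rw [hSb, mem_insert, mem_insert, mem_union] at hd
    rcases hd with rfl | rfl | h1 | h1
    · exact okE
    · exact okW
    · exact (hs1 d h1).1
    · exact (hs2 d h1).1
  have SbCard : Sb.card = s1.card + s2.card + 2 := by
    rw [hSb, card_insert_of_notMem, card_insert_of_notMem, card_union_of_disjoint hs12]
    · intro h1
      have h2 := rowsame _ h1
      rw [lm.vN _ _ (ut jW), tgN lm (ut jW), rt, rt1] at h2
      omega
    · rw [mem_insert]
      rintro (h1 | h1)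
      · have h2 := congrArg (fun d => L.row (M.vt d)) h1
        rw [lm.vU _ _ (ut (jE + 1)), lm.vN _ _ (ut jW), rt, rt1] at h2
        omega
      · have h2 := rowsame _ h1
        rw [lm.vU _ _ (ut (jE + 1)), tgU lm (ut (jE + 1)), rt, rt1] at h2
        omega
  have hSab : Disjoint Sa Sb := by
    rw [Finset.disjoint_left]
    intro d h1 h2
    have := strip_uniq (SaOk d h1).2 (SbOk d h2).2
    omega
  -- pairs
  have hp12 : Disjoint p1 p2 := by
    rw [Finset.disjoint_left]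
    intro q h1 h2
    obtain ⟨e1, m1, -, -⟩ := hp1 q h1
    obtain ⟨e2, -, -, -⟩ := hp2 q h2
    rw [e1] at e2
    have h3 := flat.inj _ _ _ ht0 (by omega) (congrArg Prod.fst e2)
    have h4 := hEW h3
    rw [h4] at m1
    exact OA _ m1 hx0A
  have hP : ∀ q ∈ p1 ∪ p2, ∃ j, q = (f t j, f (t + 1) j) ∧ Sum.inl (f t j) ∈ O ∧
      Sum.inl (f (t + 1) j) ∈ O ∧ SqE M' (Sum.inl (f t j)) (Sum.inl (f (t + 1) j)) := by
    intro q hq
    rcases mem_union.1 hq with h1 | h1
    · exact ⟨_, hp1 q h1⟩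
    · exact ⟨_, hp2 q h1⟩
  refine ⟨Sa ∪ Sb, p1 ∪ p2, ?_, ?_, ?_, ?_, ?_, ?_⟩
  · intro d hd
    rcases mem_union.1 hd with h1 | h1
    · exact ⟨(SaOk d h1).1, Or.inr (SaOk d h1).2⟩
    · exact ⟨(SbOk d h1).1, Or.inl (SbOk d h1).2⟩
  · intro q hq
    obtain ⟨j, rfl, h1, h2, h3⟩ := hP q hq
    exact ⟨h1, h2, h3⟩
  · intro _ q hq
    obtain ⟨j, rfl, h1, h2, h3⟩ := hP q hq
    exact ⟨Or.inl (rt j), Or.inr (rt1 j)⟩
  · intro hc
    exact absurd het hc
  · intro p hp q hq hpq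
    obtain ⟨i, rfl, -⟩ := hP p hp
    obtain ⟨j, rfl, -⟩ := hP q hq
    have hij : i ≠ j := by
      rintro rfl
      exact hpq rfl
    refine ⟨?_, ?_, ?_, ?_⟩
    · intro h1
      exact hij (flat.inj _ _ _ ht0 (by omega) h1)
    · intro h1
      have h2 := congrArg L.row h1
      simp only at h2
      rw [rt, rt1] at h2
      omega
    · intro h1
      have h2 := congrArg L.row h1
      simp only at h2
      rw [rt, rt1] at h2
      omega
    · intro h1
      exact hij (flat.inj _ _ _ (by omega) (by omega) h1)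
  · rw [card_union_of_disjoint hSab, card_union_of_disjoint hp12, SaCard, SbCard]
    omega

end Pool.Agent.Helper38.UB
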